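import Mathlib
import Pool.Agent.R706.GolodMat

/-!
# A basic ring that is not F-noetherian
-/

namespace Pool.Agent.Results.MP_42b5d3_al.GolodBasic

universe u v

/-- A ring is noetherian if it is both left and right noetherian. -/
def IsNoeth (S : Type u) [Ring S] : Prop := IsNoetherianRing S ∧ IsNoetherianRing Sᵐᵒᵖ

/-- A ring `R` is F-noetherian if each finite subset of `R` lies in some noetherian subring. -/
def FNoetherian (R : Type u) [Ring R] : Prop :=
  ∀ X : Finset R, ∃ S : Subring R, (X : Set R) ⊆ S ∧ IsNoeth S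

/-- The one-sided version of the basic condition, for left modules: whenever `M` is a finitely
generated left `R`-module and `f, i : A → M` are homomorphisms with `f` surjective and `i`
injective, then `f` is an isomorphism (that is, bijective). -/
def LeftBasic (R : Type u) [Ring R] : Prop :=
  ∀ (M A : Type v) [AddCommGroup M] [Module R M] [AddCommGroup A] [Module R A],
    Module.Finite R M → ∀ (f i : A →ₗ[R] M), Function.Surjective f → Function.Injective i →
      Function.Bijective f

/-- A ring is basic if it satisfies the basic condition for left and for right modules (right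
`R`-modules are left modules over the opposite ring). -/
def Basic (R : Type u) [Ring R] : Prop := LeftBasic.{u, v} R ∧ LeftBasic.{u, v} Rᵐᵒᵖ

/-! ### Algebraic matrices imply the basic condition -/

section algebraic
open Polynomial

variable {K : Type} [Field K] {S : Type u} [Ring S] [Algebra K S]

/-- an algebraic element satisfies `r^l = r^(l+1) q(r)` -/
theorem pi_reg (r : S) (h : ∃ p : K[X], p ≠ 0 ∧ aeval r p = 0) :
    ∃ (l : ℕ) (q : K[X]), aeval r (X ^ l : K[X]) = aeval r (X ^ (l + 1) * q) := by
  obtain ⟨p, hp, hr⟩ := h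
  obtain ⟨g, hg, hg0⟩ := Polynomial.exists_eq_pow_rootMultiplicity_mul_and_not_dvd p hp 0
  set l := Polynomial.rootMultiplicity 0 p
  rw [map_zero, sub_zero] at hg hg0
  have hc : g.coeff 0 ≠ 0 := by
    intro h0
    exact hg0 (Polynomial.X_dvd_iff.2 h0)
  refine ⟨l, -C (g.coeff 0)⁻¹ * divX g, ?_⟩
  have h1 : (X ^ l : K[X]) - X ^ (l + 1) * (-C (g.coeff 0)⁻¹ * divX g) = C (g.coeff 0)⁻¹ * p := by
    have h2 : C (g.coeff 0)⁻¹ * C (g.coeff 0) = (1 : K[X]) := by
      rw [← C_mul, inv_mul_cancel₀ hc, C_1]
    have h3 := Polynomial.divX_mul_X_add g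
    calc (X ^ l : K[X]) - X ^ (l + 1) * (-C (g.coeff 0)⁻¹ * divX g)
        = X ^ l * (1 + X * (C (g.coeff 0)⁻¹ * divX g)) := by ring
      _ = X ^ l * (C (g.coeff 0)⁻¹ * C (g.coeff 0) + X * (C (g.coeff 0)⁻¹ * divX g)) := by rw [h2]
      _ = C (g.coeff 0)⁻¹ * (X ^ l * (divX g * X + C (g.coeff 0))) := by ring
      _ = C (g.coeff 0)⁻¹ * p := by rw [h3, hg]
  rw [← sub_eq_zero, ← map_sub, h1, map_mul, hr, mul_zero]

theorem cyclic (halg : ∀ r : S, ∃ p : K[X], p ≠ 0 ∧ aeval r p = 0) {M A : Type v}
    [AddCommGroup M] [Module S M] [AddCommGroup A] [Module S A] (f i : A →ₗ[S] M)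
    (hf : Function.Surjective f) (hi : Function.Injective i) (m : M)
    (hm : ∀ x, ∃ t : S, t • m = x) : Function.Injective f := by
  obtain ⟨a, ha⟩ := hf m
  obtain ⟨r, hr⟩ := hm (i a)
  -- `i` is surjective
  obtain ⟨l, q, hq⟩ := pi_reg r (halg r)
  have hcomm : r * aeval r q = aeval r q * r := by
    have h1 : aeval r (X * q) = aeval r (q * X) := by rw [mul_comm]
    rwa [map_mul, map_mul, aeval_X] at h1
  have hstep : ∀ k, (r ^ (k + 1)) • m = (r ^ (k + 2) * aeval r q) • m →
      (r ^ k) • m = (r ^ (k + 1) * aeval r q) • m := by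
    intro k hk
    have h1 : i ((r ^ k) • a) = i ((r ^ (k + 1) * aeval r q) • a) := by
      rw [map_smul, map_smul, ← hr, ← mul_smul, ← mul_smul, ← pow_succ, hk]
      congr 1
      rw [mul_assoc, ← hcomm, ← mul_assoc, ← pow_succ]
    have h2 := congrArg f (hi h1)
    rwa [map_smul, map_smul, ha] at h2
  have hbase : (r ^ l) • m = (r ^ (l + 1) * aeval r q) • m := by
    rw [map_mul, map_pow, map_pow, aeval_X] at hq
    rw [hq]
  have hall : ∀ k, k ≤ l → (r ^ (l - k)) • m = (r ^ (l - k + 1) * aeval r q) • m := by
    intro k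
    induction k with
    | zero => intro _; exact hbase
    | succ k ih =>
      intro hk
      have h1 := ih (by omega)
      apply hstep
      rw [show l - (k + 1) + 1 = l - k by omega, show l - (k + 1) + 2 = l - k + 1 by omega]
      exact h1
  have h0 := hall l le_rfl
  rw [Nat.sub_self, pow_zero, one_smul, zero_add, pow_one] at h0
  have him : m = i (aeval r q • a) := by
    rw [map_smul, ← hr, ← mul_smul, ← hcomm]; exact h0
  have hisurj : Function.Surjective i := by
    intro x
    obtain ⟨t, rfl⟩ := hm x
    exact ⟨t • (aeval r q • a), by rw [map_smul, ← him]⟩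
  let e : A ≃ₗ[S] M := LinearEquiv.ofBijective i ⟨hi, hisurj⟩
  let φ : Module.End S M := f ∘ₗ e.symm.toLinearMap
  have hφ : Function.Surjective φ := hf.comp e.symm.surjective
  -- the endomorphism `φ` is injective
  let _ : Module K M := Module.compHom M (algebraMap K S)
  have : IsScalarTower K S M := ⟨fun c s x => by
    show (c • s) • x = algebraMap K S c • (s • x)
    rw [← mul_smul, Algebra.smul_def]⟩
  obtain ⟨s, hs⟩ := hm (φ m)
  obtain ⟨l', q', hq'⟩ := pi_reg s (halg s)
  have hpow : ∀ k : ℕ, (φ ^ k) m = s ^ k • m := by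
    intro k
    induction k with
    | zero => simp
    | succ k ih =>
      rw [pow_succ', Module.End.mul_apply, ih, map_smul, ← hs, ← mul_smul, ← pow_succ]
  have haev : ∀ p : K[X], aeval φ p m = aeval s p • m := by
    intro p
    induction p using Polynomial.induction_on' with
    | add p q hp hq => rw [map_add, map_add, LinearMap.add_apply, hp, hq, add_smul]
    | monomial n c =>
      rw [aeval_monomial, aeval_monomial, mul_smul, ← hpow]
      rfl
  have heq : aeval φ (X ^ l' : K[X]) = aeval φ (X ^ (l' + 1) * q') := by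
    apply LinearMap.ext
    intro x
    obtain ⟨t, rfl⟩ := hm x
    rw [map_smul, map_smul, haev, haev, hq']
  have hφinj : Function.Injective φ := by
    rw [injective_iff_map_eq_zero]
    intro y hy
    have hφl : Function.Surjective (φ ^ l') := by
      rw [Module.End.coe_pow]
      exact hφ.iterate l'
    obtain ⟨x, rfl⟩ := hφl y
    have h1 : (aeval φ (X ^ l' : K[X])) x = (aeval φ (q' * X * X ^ l')) x := by
      rw [heq]
      congr 2
      ring
    rw [map_mul, map_mul, map_pow, aeval_X, Module.End.mul_apply, Module.End.mul_apply, hy,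
      map_zero] at h1
    exact h1
  have : (f : A → M) = φ ∘ e := by
    ext x
    simp [φ]
  rw [this]
  exact hφinj.comp e.injective

open Matrix.Module in
/-- if all square matrices over the `K`-algebra `B` are algebraic over `K`, then `B` satisfies the
basic condition for left modules -/
theorem leftBasic_of_algebraic (B : Type u) [Ring B] [Algebra K B]
    (halg : ∀ (n : ℕ) (r : Matrix (Fin n) (Fin n) B), ∃ p : K[X], p ≠ 0 ∧ aeval r p = 0) :
    LeftBasic.{u, v} B := by
  intro M A _ _ _ _ hfin f i hf hi
  refine ⟨?_, hf⟩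
  obtain ⟨n, s, hs⟩ := Module.Finite.exists_fin (R := B) (M := M)
  have hinj : Function.Injective (f.mapMatrixModule (Fin n)) := by
    refine cyclic (K := K) (halg n) (f.mapMatrixModule (Fin n)) (i.mapMatrixModule (Fin n)) ?_ ?_ s ?_
    · intro x
      choose y hy using fun j => hf (x j)
      exact ⟨y, funext hy⟩
    · intro x y hxy
      ext j
      exact hi (congrFun hxy j)
    · intro x
      have h1 : ∀ j, ∃ c : Fin n → B, ∑ k, c k • s k = x j := by
        intro j
        have : x j ∈ Submodule.span B (Set.range s) := by rw [hs]; trivial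
        exact (Submodule.mem_span_range_iff_exists_fun B).1 this
      choose c hc using h1
      exact ⟨c, funext hc⟩
  intro x y hxy
  rcases n with _ | n
  · apply hi
    have hM : ∀ z : M, z = 0 := by
      intro z
      have : z ∈ Submodule.span B (Set.range s) := by rw [hs]; trivial
      rw [Set.range_eq_empty, Submodule.span_empty] at this
      exact (Submodule.mem_bot B).1 this
    rw [hM (i x), hM (i y)]
  · have h1 := @hinj (fun _ => x) (fun _ => y) (by
      ext j
      exact hxy)
    exact congrFun h1 0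

end algebraic

/-! ### Algebras with a nil augmentation ideal -/

section nil
open Polynomial

variable {K : Type} [Field K]

/-- every square matrix with entries in the kernel of `ε` is nilpotent -/
def NilMat {B : Type u} [Ring B] (ε : B →+* K) : Prop :=
  ∀ (n : ℕ) (W : Matrix (Fin n) (Fin n) B), (∀ i j, ε (W i j) = 0) → ∃ N : ℕ, W ^ N = 0

theorem algebraic_of_nilMat {B : Type u} [Ring B] [Algebra K B] (ε : B →ₐ[K] K)
    (h : NilMat (ε : B →+* K)) (n : ℕ) (r : Matrix (Fin n) (Fin n) B) :
    ∃ p : K[X], p ≠ 0 ∧ aeval r p = 0 := by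
  let E : Matrix (Fin n) (Fin n) B →ₐ[K] Matrix (Fin n) (Fin n) K := ε.mapMatrix
  let χ : K[X] := (E r).charpoly
  have hχ : χ ≠ 0 := (Matrix.charpoly_monic (E r)).ne_zero
  have h1 : E (aeval r χ) = 0 := by
    rw [← Polynomial.aeval_algHom_apply]
    exact Matrix.aeval_self_charpoly (E r)
  obtain ⟨N, hN⟩ := h n (aeval r χ) (fun i j => congrFun (congrFun h1 i) j)
  exact ⟨χ ^ N, pow_ne_zero _ hχ, by rw [map_pow, hN]⟩

/-- the condition `NilMat` passes to the opposite ring -/
theorem nilMat_op {B : Type u} [Ring B] (ε : B →+* K) (h : NilMat ε) (ε' : Bᵐᵒᵖ →+* K)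
    (hε : ∀ b, ε' b = ε b.unop) : NilMat ε' := by
  intro n W hW
  let F : Matrix (Fin n) (Fin n) Bᵐᵒᵖ → Matrix (Fin n) (Fin n) B := fun X i j => (X j i).unop
  have hmul : ∀ X Y, F (X * Y) = F Y * F X := by
    intro X Y
    ext i j
    show (∑ k, X j k * Y k i).unop = ∑ k, (Y k i).unop * (X j k).unop
    rw [Finset.unop_sum]
    rfl
  have hone : F 1 = 1 := by
    ext i j
    simp only [F, Matrix.one_apply]
    by_cases hij : i = j
    · simp [hij]
    · simp [hij, Ne.symm hij]
  have hpow : ∀ N : ℕ, F (W ^ N) = F W ^ N := by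
    intro N
    induction N with
    | zero => rw [pow_zero, pow_zero, hone]
    | succ N ih => rw [pow_succ, pow_succ', hmul, ih]
  obtain ⟨N, hN⟩ := h n (F W) (fun i j => by
    rw [← hε]; exact hW j i)
  refine ⟨N, ?_⟩
  rw [← hpow] at hN
  ext i j
  have := congrFun (congrFun hN j) i
  simpa [F] using this

end nil

/-! ### Noetherian rings with a nil ideal of finite index are finite -/

section noeth

/-- the left ideal generated by `a A`, a two-sided ideal -/
def AaA {A : Type u} [Ring A] (a : A) : Ideal A := Ideal.span (Set.range fun s => a * s)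

instance {A : Type u} [Ring A] (a : A) : (AaA a).IsTwoSided where
  mul_mem_of_left := by
    intro x b hx
    induction hx using Submodule.span_induction with
    | mem x hx =>
      obtain ⟨s, rfl⟩ := hx
      exact Ideal.subset_span ⟨s * b, by rw [mul_assoc]⟩
    | zero => rw [zero_mul]; exact Submodule.zero_mem _
    | add x y _ _ hx hy => rw [add_mul]; exact Submodule.add_mem _ hx hy
    | smul r x _ hx => rw [smul_eq_mul, mul_assoc]; exact Submodule.smul_mem _ r hx

theorem AaA_sq {A : Type u} [Ring A] {a : A} (ha : ∀ u, a * u * a = 0) {x y : A}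
    (hx : x ∈ AaA a) (hy : y ∈ AaA a) : x * y = 0 := by
  have h1 : ∀ y ∈ AaA a, ∀ s, a * s * y = 0 := by
    intro y hy
    induction hy using Submodule.span_induction with
    | mem y hy =>
      obtain ⟨t, rfl⟩ := hy
      intro s
      rw [← mul_assoc, ha, zero_mul]
    | zero => intro s; rw [mul_zero]
    | add y z _ _ hy hz => intro s; rw [mul_add, hy, hz, add_zero]
    | smul r y _ hy => intro s; rw [smul_eq_mul, ← mul_assoc, mul_assoc a s r]; exact hy _
  induction hx using Submodule.span_induction with
  | mem x hx =>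
    obtain ⟨s, rfl⟩ := hx
    exact h1 y hy s
  | zero => rw [zero_mul]
  | add x z _ _ hx hz => rw [add_mul, hx, hz, add_zero]
  | smul r x _ hx => rw [smul_eq_mul, mul_assoc, hx, mul_zero]

/-- Utumi's lemma -/
theorem exists_sq_zero {A : Type u} [Ring A] [IsNoetherianRing A] (𝔫 : Ideal A) [𝔫.IsTwoSided]
    (hnil : ∀ x ∈ 𝔫, IsNilpotent x) (h0 : 𝔫 ≠ ⊥) : ∃ a ∈ 𝔫, a ≠ 0 ∧ ∀ u, a * u * a = 0 := by
  -- left annihilators
  let ann : A → Ideal A := fun a =>
    { carrier := {x | x * a = 0}
      zero_mem' := zero_mul a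
      add_mem' := by
        intro x y hx hy
        show (x + y) * a = 0
        rw [add_mul, hx, hy, add_zero]
      smul_mem' := by
        intro r x hx
        show r * x * a = 0
        rw [mul_assoc, hx, mul_zero] }
  have hmem : ∀ {x a}, x ∈ ann a ↔ x * a = 0 := Iff.rfl
  obtain ⟨b, hb, hb0⟩ := Submodule.exists_mem_ne_zero_of_ne_bot h0
  have hne : {I : Ideal A | ∃ a ∈ 𝔫, a ≠ 0 ∧ ann a = I}.Nonempty := ⟨_, b, hb, hb0, rfl⟩
  obtain ⟨_, ⟨a, ha, ha0, rfl⟩, hmax⟩ := set_has_maximal_iff_noetherian.2
    (inferInstance : IsNoetherian A A) _ hne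
  refine ⟨a, ha, ha0, fun u => ?_⟩
  by_cases hau : a * u = 0
  · rw [hau, zero_mul]
  · have hau' : a * u ∈ 𝔫 := Ideal.mul_mem_right u 𝔫 ha
    obtain ⟨k, hk⟩ := hnil _ hau'
    -- the last nonzero power
    classical
    let k0 := Nat.find (⟨k, hk⟩ : ∃ k, (a * u) ^ k = 0)
    have hk0 : (a * u) ^ k0 = 0 := Nat.find_spec (⟨k, hk⟩ : ∃ k, (a * u) ^ k = 0)
    have hmin : ∀ j < k0, (a * u) ^ j ≠ 0 := fun j hj =>
      Nat.find_min (⟨k, hk⟩ : ∃ k, (a * u) ^ k = 0) hj
    have hk2 : 2 ≤ k0 := by
      by_contra hlt
      have : k0 = 0 ∨ k0 = 1 := by omega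
      rcases this with h | h
      · rw [h, pow_zero] at hk0
        apply ha0
        rw [← one_mul a, hk0, zero_mul]
      · rw [h, pow_one] at hk0
        exact hau hk0
    obtain ⟨j, hj⟩ : ∃ j, k0 = j + 2 := ⟨k0 - 2, by omega⟩
    have hc0 : (a * u) ^ (j + 1) ≠ 0 := hmin _ (by omega)
    have hcn : (a * u) ^ (j + 1) ∈ 𝔫 := by
      rw [pow_succ]
      exact 𝔫.mul_mem_left _ hau'
    have hle : ann a ≤ ann ((a * u) ^ (j + 1)) := by
      intro x hx
      rw [hmem] at hx ⊢
      rw [pow_succ', ← mul_assoc, ← mul_assoc, hx, zero_mul, zero_mul]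
    have heq : ann ((a * u) ^ (j + 1)) = ann a := by
      by_contra hne
      exact hmax _ ⟨_, hcn, hc0, rfl⟩ (lt_of_le_of_ne hle (Ne.symm hne))
    have : a * u ∈ ann ((a * u) ^ (j + 1)) := by
      rw [hmem, ← pow_succ', ← hk0, hj]
    rw [heq] at this
    exact this

/-- the inductive step -/
theorem finite_step {K : Type} [Field K] [Finite K] {A : Type u} [Ring A] [IsNoetherianRing A]
    (ε : A →+* K) (hnil : ∀ x, ε x = 0 → IsNilpotent x)
    (hq : ∀ P : Ideal A, P.IsTwoSided → P ≠ ⊥ → Finite (A ⧸ P)) : Finite A := by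
  classical
  by_cases h0 : RingHom.ker ε = ⊥
  · exact Finite.of_injective ε ((RingHom.injective_iff_ker_eq_bot ε).2 h0)
  · obtain ⟨a, _, ha0, ha⟩ := exists_sq_zero (RingHom.ker ε) (fun x hx => hnil x hx) h0
    have haP : a ∈ AaA a := Ideal.subset_span ⟨1, mul_one a⟩
    have hP : AaA a ≠ ⊥ := by
      intro h
      rw [h] at haP
      exact ha0 haP
    have hfin := hq (AaA a) inferInstance hP
    obtain ⟨n, p, hp⟩ := Submodule.fg_iff_exists_fin_generating_family.1
      (IsNoetherian.noetherian (AaA a) : (AaA a).FG)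
    have hpm : ∀ i, p i ∈ AaA a := by
      intro i
      rw [← hp]
      exact Submodule.subset_span ⟨i, rfl⟩
    have hσ : ∀ c : A ⧸ AaA a, ∃ x, Ideal.Quotient.mk (AaA a) x = c := Ideal.Quotient.mk_surjective
    choose σ hσ using hσ
    have hsub : ∀ x : A, x - σ (Ideal.Quotient.mk (AaA a) x) ∈ AaA a := by
      intro x
      rw [← Ideal.Quotient.eq_zero_iff_mem, map_sub, hσ, sub_self]
    apply Finite.of_surjective
      (fun cd : (A ⧸ AaA a) × (Fin n → A ⧸ AaA a) => σ cd.1 + ∑ i, σ (cd.2 i) * p i)
    intro x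
    have h1 : ∀ z ∈ AaA a, ∃ r : Fin n → A, ∑ i, r i • p i = z := by
      intro z hz
      rw [← hp, Submodule.mem_span_range_iff_exists_fun] at hz
      exact hz
    obtain ⟨r, hr⟩ := h1 _ (hsub x)
    refine ⟨⟨Ideal.Quotient.mk _ x, fun i => Ideal.Quotient.mk _ (r i)⟩, ?_⟩
    have h2 : ∀ i, σ (Ideal.Quotient.mk (AaA a) (r i)) * p i = r i • p i := by
      intro i
      have h3 := AaA_sq ha (hsub (r i)) (hpm i)
      rw [sub_mul, sub_eq_zero] at h3
      rw [smul_eq_mul, h3]
    show σ (Ideal.Quotient.mk (AaA a) x) + ∑ i, σ (Ideal.Quotient.mk (AaA a) (r i)) * p i = x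
    rw [Finset.sum_congr rfl (fun i _ => h2 i), hr]
    abel

/-- a left noetherian ring with a nil ideal whose quotient embeds in a finite field is finite -/
theorem finite_of_nil {K : Type} [Field K] [Finite K] {A : Type u} [Ring A] [IsNoetherianRing A]
    (ε : A →+* K) (hnil : ∀ x, ε x = 0 → IsNilpotent x) : Finite A := by
  have key : ∀ Q : Ideal A, Q.IsTwoSided → Finite (A ⧸ Q) := by
    intro Q
    have hwf : WellFounded ((· > ·) : Ideal A → Ideal A → Prop) :=
      wellFounded_gt
    induction Q using hwf.induction with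
    | _ Q ih =>
      intro hQ
      by_cases hle : ∀ x ∈ Q, ε x = 0
      · let ε' : A ⧸ Q →+* K := Ideal.Quotient.lift Q ε hle
        have hε' : ∀ x, ε' (Ideal.Quotient.mk Q x) = ε x := fun x => rfl
        have hNoe : IsNoetherianRing (A ⧸ Q) := isNoetherianRing_of_surjective A (A ⧸ Q)
          (Ideal.Quotient.mk Q) Ideal.Quotient.mk_surjective
        refine finite_step ε' ?_ ?_
        · intro x hx
          obtain ⟨x, rfl⟩ := Ideal.Quotient.mk_surjective x
          exact (hnil x hx).map (Ideal.Quotient.mk Q)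
        · intro P hP hP0
          let f : A →+* (A ⧸ Q) ⧸ P := (Ideal.Quotient.mk P).comp (Ideal.Quotient.mk Q)
          have hf : Function.Surjective f :=
            Ideal.Quotient.mk_surjective.comp Ideal.Quotient.mk_surjective
          have hlt : Q < RingHom.ker f := by
            apply lt_of_le_of_ne
            · intro x hx
              rw [RingHom.mem_ker]
              show Ideal.Quotient.mk P (Ideal.Quotient.mk Q x) = 0
              rw [Ideal.Quotient.eq_zero_iff_mem.2 hx, map_zero]
            · intro h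
              apply hP0
              rw [eq_bot_iff]
              intro y hy
              obtain ⟨x, rfl⟩ := Ideal.Quotient.mk_surjective y
              have h1 : x ∈ RingHom.ker f := by
                rw [RingHom.mem_ker]
                exact Ideal.Quotient.eq_zero_iff_mem.2 hy
              rw [← h] at h1
              exact Ideal.Quotient.eq_zero_iff_mem.2 h1
          have := ih (RingHom.ker f) hlt inferInstance
          exact Finite.of_equiv _ (RingHom.quotientKerEquivOfSurjective hf).toEquiv
      · push Not at hle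
        obtain ⟨x, hx, hx0⟩ := hle
        have htop : Q = ⊤ := by
          have hu : IsOfFinOrder (Units.mk0 (ε x) hx0) := isOfFinOrder_of_finite _
          obtain ⟨N, hN0, hN⟩ := isOfFinOrder_iff_pow_eq_one.1 hu
          have hN' : ε x ^ N = 1 := by
            have := congrArg Units.val hN
            rwa [Units.val_pow_eq_pow_val, Units.val_mk0, Units.val_one] at this
          have h1 : IsNilpotent (1 - x ^ N) := hnil _ (by
            rw [map_sub, map_one, map_pow, hN', sub_self])
          have h2 : IsUnit (x ^ N) := by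
            have := h1.isUnit_one_sub
            rwa [sub_sub_cancel] at this
          obtain ⟨k, rfl⟩ : ∃ k, N = k + 1 := ⟨N - 1, by omega⟩
          have h3 : x ^ (k + 1) ∈ Q := by
            rw [pow_succ]
            exact Q.mul_mem_left _ hx
          exact Ideal.eq_top_of_isUnit_mem Q h3 h2
        rw [htop]
        have : Subsingleton (A ⧸ (⊤ : Ideal A)) := by
          constructor
          intro x y
          obtain ⟨x, rfl⟩ := Submodule.Quotient.mk_surjective _ x
          obtain ⟨y, rfl⟩ := Submodule.Quotient.mk_surjective _ y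
          exact (Submodule.Quotient.eq _).2 trivial
        infer_instance
  have := key ⊥ inferInstance
  exact Finite.of_equiv _ (RingEquiv.quotientBot A).toEquiv

end noeth

/-! ### The example -/

open Pool.Agent.Helper884.Golod MonoidAlgebra in
/-- The negative answer: there is a basic ring that is not F-noetherian. -/
theorem result : ∃ (R : Type) (_ : Ring R), Basic.{0, v} R ∧ ¬ FNoetherian R := by
  classical
  obtain ⟨I, hI, hinf, h1, h2⟩ := Pool.Agent.R706.GolodMat.golod_matrices (K := ZMod 2)
  let A := T (ZMod 2) ⧸ I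
  let q : T (ZMod 2) →ₐ[ZMod 2] A := Ideal.Quotient.mkₐ (ZMod 2) I
  have hq : Function.Surjective q := Ideal.Quotient.mk_surjective
  have hq0 : ∀ f, q f = 0 ↔ f ∈ I := fun f => Ideal.Quotient.eq_zero_iff_mem
  let ε : A →ₐ[ZMod 2] ZMod 2 := Ideal.Quotient.liftₐ I aug (fun f hf => by
    rw [aug_apply]; exact h1 f hf)
  have hε : ∀ f, ε (q f) = aug f := fun f => rfl
  have hnil : NilMat (ε : A →+* ZMod 2) := by
    intro n W hW
    choose M hM using fun i j => hq (W i j)
    obtain ⟨N, hN⟩ := h2 n (Matrix.of M) (fun i j => by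
      rw [mem_Ge_one_iff, ← hε]
      show ε (q (M i j)) = 0
      rw [hM]; exact hW i j)
    refine ⟨N, ?_⟩
    have h5 : (q.toRingHom.mapMatrix (Matrix.of M)) = W := by
      ext i j
      exact hM i j
    rw [← h5, ← map_pow]
    ext i j
    exact (hq0 _).2 (hN i j)
  refine ⟨A, inferInstance, ⟨?_, ?_⟩, ?_⟩
  · exact leftBasic_of_algebraic (K := ZMod 2) A (algebraic_of_nilMat ε hnil)
  · let ε' : Aᵐᵒᵖ →ₐ[ZMod 2] ZMod 2 :=
      { toFun := fun b => ε b.unop
        map_one' := by rw [MulOpposite.unop_one, map_one]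
        map_mul' := fun x y => by rw [MulOpposite.unop_mul, map_mul, mul_comm]
        map_zero' := by rw [MulOpposite.unop_zero, map_zero]
        map_add' := fun x y => by rw [MulOpposite.unop_add, map_add]
        commutes' := fun c => by
          rw [MulOpposite.algebraMap_apply, MulOpposite.unop_op, AlgHom.commutes] }
    exact leftBasic_of_algebraic (K := ZMod 2) Aᵐᵒᵖ (algebraic_of_nilMat ε'
      (nilMat_op (ε : A →+* ZMod 2) hnil (ε' : Aᵐᵒᵖ →+* ZMod 2) (fun b => rfl)))
  · intro hF
    obtain ⟨S, hS, hSn⟩ := hF {q (single (FreeMonoid.of 0) 1), q (single (FreeMonoid.of 1) 1)}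
    have htop : S = ⊤ := by
      rw [eq_top_iff]
      intro x _
      let S' : Subalgebra (ZMod 2) A :=
        { S with
          algebraMap_mem' := fun c => by
            have : c = 0 ∨ c = 1 := by
              revert c; decide
            rcases this with rfl | rfl
            · rw [map_zero]; exact S.zero_mem
            · rw [map_one]; exact S.one_mem }
      have hx : x ∈ (Algebra.adjoin (ZMod 2) {q (single (FreeMonoid.of 0) 1),
          q (single (FreeMonoid.of 1) 1)} : Subalgebra (ZMod 2) A) := by
        rw [← Set.image_pair, ← AlgHom.map_adjoin, adjoin_T, Algebra.map_top,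
          (AlgHom.range_eq_top q).2 hq]
        trivial
      have hle : Algebra.adjoin (ZMod 2) {q (single (FreeMonoid.of 0) 1),
          q (single (FreeMonoid.of 1) 1)} ≤ S' := by
        apply Algebra.adjoin_le
        intro y hy
        apply hS
        simpa using hy
      exact hle hx
    subst htop
    have : IsNoetherianRing (⊤ : Subring A) := hSn.1
    have hA : IsNoetherianRing A := isNoetherianRing_of_ringEquiv _ Subring.topEquiv
    have hfin : Finite A := finite_of_nil (ε : A →+* ZMod 2) (fun x hx => by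
      obtain ⟨N, hN⟩ := hnil 1 (Matrix.of fun _ _ => x) (fun _ _ => hx)
      refine ⟨N, ?_⟩
      have h3 : ∀ k : ℕ, (Matrix.of fun _ _ : Fin 1 => x) ^ k = Matrix.of fun _ _ => x ^ k := by
        intro k
        induction k with
        | zero => ext i j; simp [Subsingleton.elim i j]
        | succ k ih =>
          rw [pow_succ, ih]
          ext i j
          simp [Matrix.mul_apply, pow_succ]
      rw [h3] at hN
      exact congrFun (congrFun hN 0) 0)
    exact not_finite_iff_infinite.2 hinf hfin

end Pool.Agent.Results.MP_42b5d3_al.GolodBasic
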